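import Mathlib

set_option autoImplicit false

universe u v

namespace Pool.Agent.Results.MP_d8de41_al.NonUI

/-- The subgroup of the full direct product consisting of the sequences
that are equal to the identity on a set belonging to the ultrafilter `U`. -/
def nullSeq (U : Ultrafilter ℕ) (G : ℕ → Type u) [∀ i, Group (G i)] :
    Subgroup (∀ i, G i) where
  carrier := {x | {i : ℕ | x i = 1} ∈ U}
  one_mem' := by
    change {i : ℕ | (1 : ∀ i, G i) i = 1} ∈ (U : Filter ℕ)
    exact Filter.Eventually.of_forall (fun i => rfl)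
  mul_mem' := by
    intro a b ha hb
    filter_upwards [ha, hb] with i hi hj
    change a i * b i = 1
    rw [hi, hj, one_mul]
  inv_mem' := by
    intro a ha
    filter_upwards [ha] with i hi
    change (a i)⁻¹ = 1
    rw [hi, inv_one]

instance nullSeq_normal (U : Ultrafilter ℕ) (G : ℕ → Type u) [∀ i, Group (G i)] :
    (nullSeq U G).Normal where
  conj_mem := by
    intro a ha g
    change {i : ℕ | (g * a * g⁻¹) i = 1} ∈ U
    filter_upwards [ha] with i hi
    change g i * a i * (g i)⁻¹ = 1
    rw [hi, mul_one, mul_inv_cancel]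

/-- The ultraproduct of the groups `G i` with respect to `U`: the quotient of the
full direct product by the normal subgroup `nullSeq U G`. -/
abbrev UProd (U : Ultrafilter ℕ) (G : ℕ → Type u) [∀ i, Group (G i)] : Type u :=
  (∀ i, G i) ⧸ nullSeq U G

/-- A group `H` is a ui-group (with factors in universe `u`) if it is the image, under a
surjective homomorphism, of an ultraproduct over `ℕ` of groups with respect to some
nonprincipal ultrafilter. -/
def IsUI (H : Type v) [Group H] : Prop :=
  ∃ (G : ℕ → Type u) (_ : ∀ i, Group (G i)) (U : Ultrafilter ℕ),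
    (∀ n : ℕ, U ≠ pure n) ∧ ∃ φ : UProd U G →* H, Function.Surjective φ

/-- A group is bounded torsion if `h ^ n = 1` for all `h`, for some positive `n`. -/
def IsBoundedTorsion (H : Type v) [Group H] : Prop :=
  ∃ n : ℕ, 0 < n ∧ ∀ h : H, h ^ n = 1

/-- The direct sum (restricted direct product) of countably many copies of the symmetric
group on three letters, realised inside the full direct product. -/
def sumS3 : Subgroup (ℕ → Equiv.Perm (Fin 3)) where
  carrier := {x | {j : ℕ | x j ≠ 1}.Finite}
  one_mem' := by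
    change {j : ℕ | (1 : ℕ → Equiv.Perm (Fin 3)) j ≠ 1}.Finite
    have h : {j : ℕ | (1 : ℕ → Equiv.Perm (Fin 3)) j ≠ 1} = ∅ := by
      ext j
      constructor
      · intro hj
        exact absurd rfl hj
      · intro hj
        exact absurd hj (Set.notMem_empty j)
    rw [h]
    exact Set.finite_empty
  mul_mem' := by
    intro a b ha hb
    refine (ha.union hb).subset ?_
    intro j hj
    by_contra h
    apply hj
    have h1 : a j = 1 := by
      by_contra h1
      exact h (Or.inl h1)
    have h2 : b j = 1 := by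
      by_contra h2
      exact h (Or.inr h2)
    change a j * b j = 1
    rw [h1, h2, one_mul]
  inv_mem' := by
    intro a ha
    refine ha.subset ?_
    intro j hj h1
    apply hj
    change (a j)⁻¹ = 1
    rw [h1, inv_one]

theorem tail_mem {U : Ultrafilter ℕ} (hU : ∀ n : ℕ, U ≠ pure n) (n : ℕ) :
    {i : ℕ | n ≤ i} ∈ (U : Filter ℕ) := by
  rcases U.le_cofinite_or_eq_pure with h | ⟨a, ha⟩
  · apply h
    rw [Filter.mem_cofinite]
    refine (Set.finite_lt_nat n).subset ?_
    intro i hi
    by_contra h2
    have h3 : n ≤ i := not_lt.mp h2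
    exact hi h3
  · exact absurd ha (hU a)

/-- The word `x ^ 2 s x⁻¹ s⁻¹ r`. -/
def wd {A : Type v} [Group A] (x s r : A) : A := x ^ 2 * s * x⁻¹ * s⁻¹ * r

theorem wd_one {A : Type v} [Group A] (x : A) : wd x 1 1 = x := by
  simp [wd, pow_two]

/-- A solution of the first `i + 1` equations, computed backwards. -/
def back {A : Type v} [Group A] (s r : ℕ → A) : ℕ → ℕ → A
  | _, 0 => 1
  | n, k + 1 => wd (back s r (n + 1) k) (s n) (r n)

/-- Every triangular system `x n = wd (x (n+1)) (s n) (r n)` is solvable in a ui-group. -/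
theorem IsUI.solve {H : Type v} [Group H] (h : IsUI.{u, v} H) (s r : ℕ → H) :
    ∃ y : ℕ → H, ∀ n, y n = wd (y (n + 1)) (s n) (r n) := by
  obtain ⟨G, _, U, hU, φ, hφ⟩ := h
  have hφ' : ∀ t : H, ∃ g : ∀ i, G i, φ (QuotientGroup.mk g) = t := by
    intro t
    obtain ⟨q, hq⟩ := hφ t
    obtain ⟨g, rfl⟩ := QuotientGroup.mk_surjective q
    exact ⟨g, hq⟩
  choose lift hlift using hφ'
  let S : ℕ → ∀ i, G i := fun n => lift (s n)
  let R : ℕ → ∀ i, G i := fun n => lift (r n)
  let X : ℕ → ∀ i, G i := fun n i => back (fun m => S m i) (fun m => R m i) n (i + 1 - n)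
  refine ⟨fun n => φ (QuotientGroup.mk (X n)), fun n => ?_⟩
  have key : (QuotientGroup.mk (X n) : UProd U G) =
      QuotientGroup.mk (wd (X (n + 1)) (S n) (R n)) := by
    rw [QuotientGroup.eq]
    change {i : ℕ | ((X n)⁻¹ * wd (X (n + 1)) (S n) (R n)) i = 1} ∈ (U : Filter ℕ)
    filter_upwards [tail_mem hU n] with i hi
    have h1 : X n i = wd (X (n + 1) i) (S n i) (R n i) := by
      change back (fun m => S m i) (fun m => R m i) n (i + 1 - n) =
        wd (back (fun m => S m i) (fun m => R m i) (n + 1) (i + 1 - (n + 1))) (S n i) (R n i)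
      have h2 : i + 1 - n = (i + 1 - (n + 1)) + 1 := by
        have : n ≤ i := hi
        omega
      rw [h2]
      rfl
    change (X n i)⁻¹ * wd (X (n + 1) i) (S n i) (R n i) = 1
    rw [← h1, inv_mul_cancel]
  change φ (QuotientGroup.mk (X n)) = wd (φ (QuotientGroup.mk (X (n + 1)))) (s n) (r n)
  rw [key]
  have h3 : (QuotientGroup.mk (wd (X (n + 1)) (S n) (R n)) : UProd U G) =
      wd (QuotientGroup.mk (X (n + 1))) (QuotientGroup.mk (S n)) (QuotientGroup.mk (R n)) := rfl
  rw [h3]
  simp only [wd, map_mul, map_pow, map_inv]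
  rw [show φ (QuotientGroup.mk (S n)) = s n from hlift (s n),
    show φ (QuotientGroup.mk (R n)) = r n from hlift (r n)]

/-- The obstruction in the symmetric group on three letters. -/
theorem wd_ne_one : ∀ x : Equiv.Perm (Fin 3),
    wd x (Equiv.swap 0 1) (Equiv.swap 0 1 * Equiv.swap 1 2) ≠ 1 := by
  unfold wd
  decide

theorem pow_six (x : Equiv.Perm (Fin 3)) : x ^ 6 = 1 := by
  have h : Fintype.card (Equiv.Perm (Fin 3)) = 6 := by
    rw [Fintype.card_perm, Fintype.card_fin]
    rfl
  rw [← h]
  exact pow_card_eq_one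

/-- The element of `sumS3` with entry `a` in coordinate `n` and identity elsewhere. -/
def single (n : ℕ) (a : Equiv.Perm (Fin 3)) : sumS3 :=
  ⟨Pi.mulSingle n a, by
    change {j : ℕ | (Pi.mulSingle n a : ℕ → Equiv.Perm (Fin 3)) j ≠ 1}.Finite
    refine (Set.finite_singleton n).subset ?_
    intro j hj
    by_contra h
    have h' : j ≠ n := h
    exact hj (by rw [Pi.mulSingle_eq_of_ne h'])⟩

/-- There is a bounded torsion group which is not a ui-group: the direct sum of countably
many copies of the symmetric group on three letters satisfies `h ^ 6 = 1`, so it is bounded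
torsion, and it is not a homomorphic image of an ultraproduct over `ℕ` of groups with respect
to a nonprincipal ultrafilter. -/
theorem result : IsBoundedTorsion sumS3 ∧ ¬ IsUI.{u, 0} sumS3 := by
  constructor
  · refine ⟨6, by norm_num, fun h => ?_⟩
    apply Subtype.ext
    funext j
    exact pow_six _
  · intro h
    obtain ⟨y, hy⟩ := h.solve (fun n => single n (Equiv.swap 0 1))
      (fun n => single n (Equiv.swap 0 1 * Equiv.swap 1 2))
    have hco : ∀ n j, (y n : ℕ → Equiv.Perm (Fin 3)) j =
        wd ((y (n + 1) : ℕ → Equiv.Perm (Fin 3)) j)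
          ((Pi.mulSingle n (Equiv.swap 0 1) : ℕ → Equiv.Perm (Fin 3)) j)
          ((Pi.mulSingle n (Equiv.swap 0 1 * Equiv.swap 1 2) :
            ℕ → Equiv.Perm (Fin 3)) j) := by
      intro n j
      have h1 := congrArg (fun z : sumS3 => (z : ℕ → Equiv.Perm (Fin 3)) j) (hy n)
      exact h1
    have hne : ∀ n j, n ≠ j → (y n : ℕ → Equiv.Perm (Fin 3)) j =
        (y (n + 1) : ℕ → Equiv.Perm (Fin 3)) j := by
      intro n j hnj
      rw [hco n j, Pi.mulSingle_eq_of_ne (Ne.symm hnj), Pi.mulSingle_eq_of_ne (Ne.symm hnj),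
        wd_one]
    have hdiag : ∀ j, (y j : ℕ → Equiv.Perm (Fin 3)) j ≠ 1 := by
      intro j
      rw [hco j j, Pi.mulSingle_eq_same, Pi.mulSingle_eq_same]
      exact wd_ne_one _
    have hdown : ∀ j n, n ≤ j → (y (j - n) : ℕ → Equiv.Perm (Fin 3)) j ≠ 1 := by
      intro j n
      induction n with
      | zero => intro _; exact hdiag j
      | succ m ih =>
        intro hm
        rw [hne (j - (m + 1)) j (by omega)]
        have h2 : j - (m + 1) + 1 = j - m := by omega
        rw [h2]
        exact ih (by omega)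
    have hzero : ∀ j, (y 0 : ℕ → Equiv.Perm (Fin 3)) j ≠ 1 := by
      intro j
      have h3 := hdown j j le_rfl
      rwa [Nat.sub_self] at h3
    have hfin : {j : ℕ | (y 0 : ℕ → Equiv.Perm (Fin 3)) j ≠ 1}.Finite := (y 0).2
    have huniv : {j : ℕ | (y 0 : ℕ → Equiv.Perm (Fin 3)) j ≠ 1} = Set.univ := by
      ext j
      exact ⟨fun _ => Set.mem_univ j, fun _ => hzero j⟩
    rw [huniv] at hfin
    exact Set.infinite_univ hfin

end Pool.Agent.Results.MP_d8de41_al.NonUI
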